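import Mathlib

/-!
# MP_4bbd08_co : designability of unsaturated binary tree structures

Q1 asks whether every secondary structure `R` containing the arc `{1,n}` whose tree `T(R)` is
binary and unsaturated is designable (Watson-Crick pairs, no minimum distance, base pair
maximisation).  We give a counterexample with `n = 21`, `7` arcs and `7` unpaired positions:
`(((((..)(..)).)(.)).)`.

For every word `S` whose letters fit `R`, one of `50` explicit other structures with at least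
seven arcs fits `S` as well.  The finite search over the letters is organised as a decision tree
(`search`) with about 1600 nodes and is evaluated in the kernel.
-/

set_option autoImplicit false
set_option maxRecDepth 100000

namespace Pool.Agent.Results.MP_4bbd08_co.Undesignable

/-- The four nucleotides. -/
inductive Nuc
  | A | C | G | U
  deriving DecidableEq

/-- The allowed base pairs: `{G, C}` and `{A, U}` in either order. -/
def Pairs (x y : Nuc) : Prop :=
  (x = Nuc.G ∧ y = Nuc.C) ∨ (x = Nuc.C ∧ y = Nuc.G) ∨ (x = Nuc.A ∧ y = Nuc.U) ∨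
    (x = Nuc.U ∧ y = Nuc.A)

/-- `R` is a secondary structure on `{1, ..., n}`: every arc is a pair `(i, j)` with
`1 ≤ i < j ≤ n`, no two arcs share an endpoint and no two arcs cross. -/
def IsStructure (n : ℕ) (R : Finset (ℕ × ℕ)) : Prop :=
  (∀ a ∈ R, 1 ≤ a.1 ∧ a.1 < a.2 ∧ a.2 ≤ n) ∧
  (∀ a ∈ R, ∀ b ∈ R, a ≠ b → a.1 ≠ b.1 ∧ a.1 ≠ b.2 ∧ a.2 ≠ b.1 ∧ a.2 ≠ b.2) ∧
  (∀ a ∈ R, ∀ b ∈ R, ¬ (a.1 < b.1 ∧ b.1 < a.2 ∧ a.2 < b.2))

/-- `R` is an arc set for the word `S` (only the letters at positions `1, ..., n` matter). -/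
def IsArcSet (n : ℕ) (S : ℕ → Nuc) (R : Finset (ℕ × ℕ)) : Prop :=
  IsStructure n R ∧ ∀ a ∈ R, Pairs (S a.1) (S a.2)

/-- `R` is designable: it is the unique arc set of maximum size of some word `S`. -/
def Designable (n : ℕ) (R : Finset (ℕ × ℕ)) : Prop :=
  ∃ S : ℕ → Nuc, IsArcSet n S R ∧ ∀ R' : Finset (ℕ × ℕ), IsArcSet n S R' → R' ≠ R →
    R'.card < R.card

/-- The unpaired positions (one-dot vertices of the tree). -/
def dots (n : ℕ) (R : Finset (ℕ × ℕ)) : Finset ℕ :=
  (Finset.Icc 1 n).filter fun p => ∀ c ∈ R, c.1 ≠ p ∧ c.2 ≠ p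

/-- The arcs whose innermost strictly enclosing arc is `a` (two-dot children of `a`). -/
def childArcs (R : Finset (ℕ × ℕ)) (a : ℕ × ℕ) : Finset (ℕ × ℕ) :=
  R.filter fun b => a.1 < b.1 ∧ b.2 < a.2 ∧
    ∀ c ∈ R, ¬ (a.1 < c.1 ∧ c.2 < a.2 ∧ c.1 < b.1 ∧ b.2 < c.2)

/-- The unpaired positions whose innermost enclosing arc is `a` (one-dot children of `a`). -/
def childDots (n : ℕ) (R : Finset (ℕ × ℕ)) (a : ℕ × ℕ) : Finset ℕ :=
  (dots n R).filter fun p => a.1 < p ∧ p < a.2 ∧
    ∀ c ∈ R, ¬ (a.1 < c.1 ∧ c.2 < a.2 ∧ c.1 < p ∧ p < c.2)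

/-- The tree of `R` is binary: every vertex has at most two children (unpaired positions have
none). -/
def Binary (n : ℕ) (R : Finset (ℕ × ℕ)) : Prop :=
  ∀ a ∈ R, (childArcs R a).card + (childDots n R a).card ≤ 2

instance (n : ℕ) (R : Finset (ℕ × ℕ)) : Decidable (IsStructure n R) := by
  unfold IsStructure; infer_instance

instance (n : ℕ) (R : Finset (ℕ × ℕ)) : Decidable (Binary n R) := by
  unfold Binary; infer_instance

/-- The counterexample `(((((..)(..)).)(.)).)`. -/
def R0 : Finset (ℕ × ℕ) := {(1, 21), (2, 19), (3, 15), (4, 13), (5, 8), (9, 12), (16, 18)}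

/-- Number code of a letter; two letters pair iff their codes add up to `3`. -/
def code : Nuc → ℕ
  | Nuc.A => 0
  | Nuc.C => 1
  | Nuc.G => 2
  | Nuc.U => 3

theorem pairs_iff (x y : Nuc) : Pairs x y ↔ code x + code y = 3 := by
  cases x <;> cases y <;> simp [Pairs, code]

theorem code_lt (x : Nuc) : code x < 4 := by cases x <;> simp [code]

/-- Change one value of a function. -/
def upd (σ : ℕ → ℕ) (i v : ℕ) : ℕ → ℕ := fun p => bif Nat.beq p i then v else σ p

theorem upd_same (σ : ℕ → ℕ) (i v : ℕ) : upd σ i v i = v := by simp [upd]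

theorem upd_other (σ : ℕ → ℕ) (i v p : ℕ) (h : p ≠ i) : upd σ i v p = σ p := by
  have : Nat.beq p i = false := by
    rw [Bool.eq_false_iff]; intro hb; exact h (Nat.eq_of_beq_eq_true hb)
  simp [upd, this]

/-- One entry of the search: a vertex of the tree (an arc `(i, j)`, or a dot `i = j`), and the
alternatives that are decided once the letters of this vertex are known.  An alternative is a
pair (new arcs, arcs kept from `R0`). -/
abbrev Entry := ℕ × ℕ × List (List (ℕ × ℕ) × List (ℕ × ℕ))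

/-- The decision tree. -/
def search : List Entry → (ℕ → ℕ) → Bool
  | [], _ => false
  | (i, j, L) :: rest, σ =>
      [0, 1, 2, 3].all fun c =>
        (L.any fun x => x.1.all fun a =>
          Nat.beq (upd (upd σ i (3 - c)) j c a.1 + upd (upd σ i (3 - c)) j c a.2) 3) ||
        search rest (upd (upd σ i (3 - c)) j c)

theorem search_sound (S : ℕ → ℕ) (hS : ∀ p, S p < 4) :
    ∀ (o : List Entry) (σ : ℕ → ℕ), (∀ p, σ p = S p ∨ σ p = 9) →
      (∀ x ∈ o, x.1 = x.2.1 ∨ S x.1 + S x.2.1 = 3) → search o σ = true →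
      ∃ x ∈ o, ∃ y ∈ x.2.2, ∀ a ∈ y.1, S a.1 + S a.2 = 3 := by
  intro o
  induction o with
  | nil => intro σ _ _ h; simp [search] at h
  | cons e rest ih =>
    obtain ⟨i, j, L⟩ := e
    intro σ hσ ho h
    have hτ : ∀ p, upd (upd σ i (3 - S j)) j (S j) p = S p ∨
        upd (upd σ i (3 - S j)) j (S j) p = 9 := by
      intro p
      by_cases hpj : p = j
      · subst hpj; left; exact upd_same _ _ _
      · rw [upd_other _ _ _ _ hpj]
        by_cases hpi : p = i
        · subst hpi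
          rw [upd_same]
          left
          rcases ho _ List.mem_cons_self with h1 | h1
          · exact absurd h1 hpj
          · simp only at h1
            omega
        · rw [upd_other _ _ _ _ hpi]; exact hσ p
    have hc : S j ∈ [0, 1, 2, 3] := by
      have := hS j
      interval_cases (S j) <;> simp
    rw [search, List.all_eq_true] at h
    have h2 := h _ hc
    rw [Bool.or_eq_true] at h2
    rcases h2 with h2 | h2
    · rw [List.any_eq_true] at h2
      obtain ⟨y, hy, hya⟩ := h2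
      rw [List.all_eq_true] at hya
      refine ⟨(i, j, L), List.mem_cons_self, y, hy, ?_⟩
      intro a ha
      have h3 := Nat.eq_of_beq_eq_true (hya a ha)
      rcases hτ a.1 with h4 | h4 <;> rcases hτ a.2 with h5 | h5
      · rw [h4, h5] at h3; exact h3
      · rw [h5] at h3; omega
      · rw [h4] at h3; omega
      · rw [h4] at h3; omega
    · obtain ⟨x, hx, y, hy, hya⟩ := ih _ hτ (fun x hx => ho x (List.mem_cons_of_mem _ hx)) h2
      exact ⟨x, List.mem_cons_of_mem _ hx, y, hy, hya⟩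

/-- The vertices in the order of the search, with the alternatives. -/
def order : List Entry := [
  (6, 6, []),
  (7, 7, [([(6, 7)], [(1, 21), (2, 19), (3, 15), (4, 13), (5, 8), (9, 12), (16, 18)])]),
  (5, 8, [([(7, 8)], [(1, 21), (2, 19), (3, 15), (4, 13), (9, 12), (16, 18)]),
    ([(5, 7)], [(1, 21), (2, 19), (3, 15), (4, 13), (9, 12), (16, 18)]),
    ([(6, 8)], [(1, 21), (2, 19), (3, 15), (4, 13), (9, 12), (16, 18)]),
    ([(5, 6)], [(1, 21), (2, 19), (3, 15), (4, 13), (9, 12), (16, 18)])]),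
  (10, 10, []),
  (11, 11, [([(10, 11)], [(1, 21), (2, 19), (3, 15), (4, 13), (5, 8), (9, 12), (16, 18)]),
    ([(6, 11), (7, 10)], [(1, 21), (2, 19), (3, 15), (4, 13), (16, 18)])]),
  (9, 12, [([(11, 12)], [(1, 21), (2, 19), (3, 15), (4, 13), (5, 8), (16, 18)]),
    ([(9, 11)], [(1, 21), (2, 19), (3, 15), (4, 13), (5, 8), (16, 18)]),
    ([(10, 12)], [(1, 21), (2, 19), (3, 15), (4, 13), (5, 8), (16, 18)]),
    ([(9, 10)], [(1, 21), (2, 19), (3, 15), (4, 13), (5, 8), (16, 18)]),
    ([(7, 12), (8, 11)], [(1, 21), (2, 19), (3, 15), (4, 13), (16, 18)]),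
    ([(5, 12), (8, 9)], [(1, 21), (2, 19), (3, 15), (4, 13), (16, 18)]),
    ([(5, 11), (7, 9)], [(1, 21), (2, 19), (3, 15), (4, 13), (16, 18)]),
    ([(5, 12), (6, 11), (7, 10), (8, 9)], [(1, 21), (2, 19), (3, 15), (4, 13), (16, 18)])]),
  (4, 13, [([(4, 9), (12, 13)], [(1, 21), (2, 19), (3, 15), (5, 8), (16, 18)]),
    ([(4, 5), (8, 13)], [(1, 21), (2, 19), (3, 15), (9, 12), (16, 18)])]),
  (14, 14, [([(13, 14)], [(1, 21), (2, 19), (3, 15), (5, 8), (9, 12), (16, 18)]),
    ([(4, 14)], [(1, 21), (2, 19), (3, 15), (5, 8), (9, 12), (16, 18)]),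
    ([(9, 14), (11, 13)], [(1, 21), (2, 19), (3, 15), (5, 8), (16, 18)]),
    ([(5, 14), (7, 13)], [(1, 21), (2, 19), (3, 15), (9, 12), (16, 18)]),
    ([(4, 11), (12, 14)], [(1, 21), (2, 19), (3, 15), (5, 8), (16, 18)]),
    ([(4, 7), (8, 14)], [(1, 21), (2, 19), (3, 15), (9, 12), (16, 18)]),
    ([(7, 14), (8, 10), (11, 13)], [(1, 21), (2, 19), (3, 15), (16, 18)]),
    ([(4, 7), (8, 10), (11, 14)], [(1, 21), (2, 19), (3, 15), (16, 18)])]),
  (3, 15, [([(14, 15)], [(1, 21), (2, 19), (4, 13), (5, 8), (9, 12), (16, 18)]),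
    ([(3, 14)], [(1, 21), (2, 19), (4, 13), (5, 8), (9, 12), (16, 18)]),
    ([(3, 4), (13, 15)], [(1, 21), (2, 19), (5, 8), (9, 12), (16, 18)])]),
  (17, 17, []),
  (16, 18, [([(17, 18)], [(1, 21), (2, 19), (3, 15), (4, 13), (5, 8), (9, 12)]),
    ([(16, 17)], [(1, 21), (2, 19), (3, 15), (4, 13), (5, 8), (9, 12)]),
    ([(14, 18), (15, 17)], [(1, 21), (2, 19), (4, 13), (5, 8), (9, 12)]),
    ([(3, 18), (15, 16)], [(1, 21), (2, 19), (4, 13), (5, 8), (9, 12)]),
    ([(3, 17), (14, 16)], [(1, 21), (2, 19), (4, 13), (5, 8), (9, 12)]),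
    ([(3, 18), (14, 17), (15, 16)], [(1, 21), (2, 19), (4, 13), (5, 8), (9, 12)]),
    ([(5, 18), (6, 17), (7, 15), (8, 14)], [(1, 21), (2, 19), (9, 12)]),
    ([(5, 17), (6, 16), (7, 15), (8, 14)], [(1, 21), (2, 19), (9, 12)]),
    ([(3, 11), (4, 10), (13, 18), (14, 17)], [(1, 21), (2, 19), (5, 8)]),
    ([(3, 11), (4, 10), (13, 17), (14, 16)], [(1, 21), (2, 19), (5, 8)])]),
  (2, 19, [([(2, 16), (18, 19)], [(1, 21), (3, 15), (4, 13), (5, 8), (9, 12)]),
    ([(2, 3), (15, 19)], [(1, 21), (4, 13), (5, 8), (9, 12), (16, 18)])]),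
  (20, 20, [([(19, 20)], [(1, 21), (3, 15), (4, 13), (5, 8), (9, 12), (16, 18)]),
    ([(2, 20)], [(1, 21), (3, 15), (4, 13), (5, 8), (9, 12), (16, 18)]),
    ([(16, 20), (17, 19)], [(1, 21), (3, 15), (4, 13), (5, 8), (9, 12)]),
    ([(3, 20), (14, 19)], [(1, 21), (4, 13), (5, 8), (9, 12), (16, 18)]),
    ([(2, 17), (18, 20)], [(1, 21), (3, 15), (4, 13), (5, 8), (9, 12)]),
    ([(2, 14), (15, 20)], [(1, 21), (4, 13), (5, 8), (9, 12), (16, 18)]),
    ([(5, 20), (6, 19), (7, 15), (8, 14)], [(1, 21), (9, 12), (16, 18)]),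
    ([(3, 11), (4, 10), (13, 20), (14, 19)], [(1, 21), (5, 8), (16, 18)]),
    ([(2, 13), (3, 11), (4, 10), (14, 20)], [(1, 21), (5, 8), (16, 18)]),
    ([(2, 5), (6, 20), (7, 15), (8, 14)], [(1, 21), (9, 12), (16, 18)])]),
  (1, 21, [])]

theorem search_true : search order (fun _ => 9) = true := by decide +kernel

/-- All alternatives are structures with at least seven arcs and different from `R0`. -/
theorem alts_ok : ∀ x ∈ order, ∀ y ∈ x.2.2,
    IsStructure 21 (y.1 ++ y.2).toFinset ∧ 7 ≤ (y.1 ++ y.2).toFinset.card ∧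
      (y.1 ++ y.2).toFinset ≠ R0 ∧ ∀ a ∈ y.2, a ∈ R0 := by
  decide +kernel

theorem order_ok : ∀ x ∈ order, x.1 = x.2.1 ∨ (x.1, x.2.1) ∈ R0 := by decide +kernel

theorem not_designable : ¬ Designable 21 R0 := by
  rintro ⟨S, ⟨hR, hS⟩, hmax⟩
  obtain ⟨x, hx, y, hy, hya⟩ := search_sound (fun p => code (S p)) (fun p => code_lt _) order
    (fun _ => 9) (fun _ => Or.inr rfl)
    (fun x hx => (order_ok x hx).imp id fun h => (pairs_iff _ _).1 (hS _ h)) search_true
  obtain ⟨h1, h2, h3, h4⟩ := alts_ok x hx y hy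
  have h5 := hmax _ ⟨h1, fun a ha => ?_⟩ h3
  · have h6 : R0.card = 7 := by decide +kernel
    omega
  · rw [List.mem_toFinset, List.mem_append] at ha
    rcases ha with ha | ha
    · exact (pairs_iff _ _).2 (hya a ha)
    · exact hS a (h4 a ha)

/-- **Negative answer to Q1.**  Not every secondary structure `R` on `{1, ..., n}` with
`{1, n} ∈ R` whose tree is binary and unsaturated is designable. -/
theorem result : ¬ ∀ (n : ℕ) (R : Finset (ℕ × ℕ)), IsStructure n R → (1, n) ∈ R → Binary n R →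
    (dots n R).Nonempty → Designable n R := by
  intro h
  refine not_designable (h 21 R0 (by decide +kernel) (by decide +kernel) (by decide +kernel) ?_)
  exact ⟨6, by decide +kernel⟩

end Pool.Agent.Results.MP_4bbd08_co.Undesignable
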